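import Mathlib

/-! At most `n² / 2` affine copies of `{0,1,3}` in a set of `n` integers. -/

namespace Pool.Agent.Results.MP_b15886_co.Half

open Finset

/-- the pairs `(a, d)` with `d ≠ 0` and `a, a + d, a + 3 d ∈ A` -/
def copies (A : Finset ℤ) : Set (ℤ × ℤ) :=
  {p | p.2 ≠ 0 ∧ p.1 ∈ A ∧ p.1 + p.2 ∈ A ∧ p.1 + 3 * p.2 ∈ A}

theorem S (n : ℕ) : 4 * ∑ i ∈ range n, min i (n - 1 - i) ≤ n ^ 2 := by
  induction n using Nat.twoStepInduction with
  | zero => simp
  | one => simp
  | more n ih _ =>
    rw [sum_range_succ, sum_range_succ']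
    have : ∑ i ∈ range n, min (i + 1) (n + 2 - 1 - (i + 1)) =
        ∑ i ∈ range n, (min i (n - 1 - i) + 1) :=
      sum_congr rfl fun i hi => by have := mem_range.1 hi; omega
    rw [this, sum_add_distrib]
    simp only [sum_const, card_range, smul_eq_mul, mul_one]
    have e : min (n + 1) (n + 2 - 1 - (n + 1)) = 0 := by omega
    rw [e, Nat.zero_min]
    nlinarith

theorem result (A : Finset ℤ) : 2 * (copies A).ncard ≤ A.card ^ 2 := by
  let P := (A ×ˢ A).filter fun p => p.1 ≠ p.2 ∧ 3 * p.2 - 2 * p.1 ∈ A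
  have h1 : (copies A).ncard ≤ P.card := by
    rw [← Set.ncard_coe_finset]
    refine Set.ncard_le_ncard_of_injOn (fun p => (p.1, p.1 + p.2)) (fun p hp => ?_)
      (fun p _ q _ e => ?_) (finite_toSet _)
    · obtain ⟨h1, h2, h3, h4⟩ := hp
      simp only [P, coe_filter, mem_product, Set.mem_ofPred_eq]
      exact ⟨⟨h2, h3⟩, by omega, by convert h4 using 1; ring⟩
    · simp only [Prod.mk.injEq] at e
      exact Prod.ext e.1 (by omega)
  let L : ℤ → ℕ := fun y => (A.filter (· < y)).card
  have hL : ∀ y ∈ A, L y + (A.filter (y < ·)).card + 1 = A.card := fun y hy => by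
    have e := card_filter_add_card_filter_not (s := A) (· < y)
    have e2 : A.filter (fun x => ¬ x < y) = insert y (A.filter (y < ·)) := by
      ext x
      simp only [mem_filter, mem_insert]
      constructor
      · rintro ⟨h, h'⟩
        by_cases e : x = y
        · exact Or.inl e
        · exact Or.inr ⟨h, by omega⟩
      · rintro (rfl | ⟨h, h'⟩)
        · exact ⟨hy, lt_irrefl _⟩
        · exact ⟨h, by omega⟩
    rw [e2, card_insert_of_notMem (by simp)] at e
    simp only [L]
    omega
  have h2 : P.card ≤ ∑ y ∈ A, 2 * min (L y) (A.card - 1 - L y) := by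
    rw [card_eq_sum_card_fiberwise (f := Prod.snd) (t := A)
      (fun p hp => (mem_product.1 (mem_filter.1 hp).1).2)]
    refine sum_le_sum fun y hy => ?_
    have e := card_filter_add_card_filter_not (s := P.filter fun p => p.2 = y) (fun p => p.1 < y)
    have inj1 : ∀ Q : Finset (ℤ × ℤ), (∀ p ∈ Q, p.2 = y) → Set.InjOn Prod.fst (Q : Set (ℤ × ℤ)) :=
      fun Q h p hp q hq e => Prod.ext e ((h p hp).trans (h q hq).symm)
    have inj2 : ∀ Q : Finset (ℤ × ℤ), (∀ p ∈ Q, p.2 = y) →
        Set.InjOn (fun p : ℤ × ℤ => 3 * y - 2 * p.1) (Q : Set (ℤ × ℤ)) :=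
      fun Q h p hp q hq e => inj1 Q h hp hq (by simp only at e; omega)
    have a1 := card_le_card_of_injOn (s := (P.filter fun p => p.2 = y).filter fun p => p.1 < y)
      (t := A.filter (· < y)) _ (fun p hp => by
        simp only [P, coe_filter, mem_filter, mem_product, Set.mem_ofPred_eq] at hp ⊢
        exact ⟨hp.1.1.1.1, hp.2⟩) (inj1 _ fun p hp => (mem_filter.1 (mem_filter.1 hp).1).2)
    have a2 := card_le_card_of_injOn (s := (P.filter fun p => p.2 = y).filter fun p => p.1 < y)
      (t := A.filter (y < ·)) _ (fun p hp => by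
        simp only [P, coe_filter, mem_filter, mem_product, Set.mem_ofPred_eq] at hp ⊢
        exact ⟨hp.1.2 ▸ hp.1.1.2.2, by omega⟩)
      (inj2 _ fun p hp => (mem_filter.1 (mem_filter.1 hp).1).2)
    have a3 := card_le_card_of_injOn (s := (P.filter fun p => p.2 = y).filter fun p => ¬ p.1 < y)
      (t := A.filter (y < ·)) _ (fun p hp => by
        simp only [P, coe_filter, mem_filter, mem_product, Set.mem_ofPred_eq] at hp ⊢
        exact ⟨hp.1.1.1.1, by omega⟩) (inj1 _ fun p hp => (mem_filter.1 (mem_filter.1 hp).1).2)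
    have a4 := card_le_card_of_injOn (s := (P.filter fun p => p.2 = y).filter fun p => ¬ p.1 < y)
      (t := A.filter (· < y)) _ (fun p hp => by
        simp only [P, coe_filter, mem_filter, mem_product, Set.mem_ofPred_eq] at hp ⊢
        exact ⟨hp.1.2 ▸ hp.1.1.2.2, by omega⟩)
      (inj2 _ fun p hp => (mem_filter.1 (mem_filter.1 hp).1).2)
    have := hL y hy
    refine le_trans (le_of_eq e.symm) ?_
    simp only [L] at this ⊢
    omega
  have mono : ∀ x ∈ A, ∀ y, x < y → L x < L y := fun x hx y h =>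
    card_lt_card ⟨fun z hz => by rw [mem_filter] at hz ⊢; exact ⟨hz.1, hz.2.trans h⟩,
      fun hs => by simpa using hs (mem_filter.2 ⟨hx, h⟩)⟩
  have h3 : ∑ y ∈ A, min (L y) (A.card - 1 - L y) ≤
      ∑ i ∈ range A.card, min i (A.card - 1 - i) := by
    rw [← sum_image (f := fun i => min i (A.card - 1 - i)) (g := L) fun x hx y hy e => by
      rcases lt_trichotomy x y with h | h | h
      exacts [absurd e (mono x hx y h).ne, h, absurd e (mono y hy x h).ne']]
    refine sum_le_sum_of_subset fun i hi => ?_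
    obtain ⟨y, hy, rfl⟩ := mem_image.1 hi
    have := hL y hy
    exact mem_range.2 (by omega)
  rw [← mul_sum] at h2
  have := S A.card
  omega

end Pool.Agent.Results.MP_b15886_co.Half
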